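import Mathlib
import Pool.Agent.R798.RatSumE

/-!
# MP_604c02_co: rational `r`-term sums of sets of irrational numbers

For all `4 ≤ r < n/2` the construction is extremal: `h(n,r) = f(n,r)`.
-/

namespace Pool.Agent.Results.MP_604c02_co.RationalSums

/-- The number of `r`-element subsets of `A` whose sum is rational. -/
noncomputable def rationalCount (A : Finset ℝ) (r : ℕ) : ℕ :=
  {B : Finset ℝ | B ⊆ A ∧ B.card = r ∧ ∃ q : ℚ, ∑ b ∈ B, b = (q : ℝ)}.ncard

/-- The values taken by the count, over all sets of exactly `n` irrational numbers. -/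
def values (n r : ℕ) : Set ℕ :=
  {c | ∃ A : Finset ℝ, A.card = n ∧ (∀ a ∈ A, Irrational a) ∧ c = rationalCount A r}

/-- `h(n,r)`: the largest such value. -/
noncomputable def h (n r : ℕ) : ℕ := sSup (values n r)

/-- `f(n,r)`: the value of the construction. -/
def f (n r : ℕ) : ℕ := (n - n / r).choose (r - 1) * (n / r)

theorem result : ∀ n r : ℕ, 4 ≤ r → 2 * r < n →
    IsGreatest (values n r) (f n r) ∧ h n r = f n r := by
  intro n r hr hn
  have hfin : ∀ A : Finset ℝ,
      {B : Finset ℝ | B ⊆ A ∧ B.card = r ∧ ∃ q : ℚ, ∑ b ∈ B, b = (q : ℝ)}.Finite := by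
    intro A
    apply (A.powerset.finite_toSet).subset
    intro B hB
    exact Finset.mem_coe.2 (Finset.mem_powerset.2 hB.1)
  have hupper : ∀ A : Finset ℝ, A.card = n → (∀ a ∈ A, Irrational a) →
      rationalCount A r ≤ f n r := by
    intro A hA1 hA2
    unfold rationalCount
    rw [Set.ncard_eq_toFinset_card _ (hfin A)]
    apply Pool.Agent.R798.RatSum.upper hA2 hA1 hr hn.le
    intro B hB
    have hB2 := (hfin A).mem_toFinset.1 hB
    exact hB2
  have hgreat : IsGreatest (values n r) (f n r) := by
    constructor
    · refine ⟨Pool.Agent.R798.RatSum.A1 r (n / r) ∪ Pool.Agent.R798.RatSum.A2 (n - n / r),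
        ?_, ?_, ?_⟩
      · rw [Finset.card_union_of_disjoint (Pool.Agent.R798.RatSum.A_disj (by omega) _ _),
          Pool.Agent.R798.RatSum.card_A1, Pool.Agent.R798.RatSum.card_A2]
        have := Nat.div_le_self n r
        omega
      · intro a ha
        rcases Finset.mem_union.1 ha with h1 | h1
        · obtain ⟨i, _, rfl⟩ := Finset.mem_image.1 h1
          exact Pool.Agent.R798.RatSum.irr_a1 (by omega) i
        · obtain ⟨i, _, rfl⟩ := Finset.mem_image.1 h1
          exact Pool.Agent.R798.RatSum.irr_a2 i
      · apply le_antisymm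
        · unfold rationalCount
          have hc : ((Pool.Agent.R798.RatSum.Fam r (n / r) (n - n / r) :
              Finset (Finset ℝ)) : Set (Finset ℝ)).ncard = f n r := by
            rw [Set.ncard_coe_finset, Pool.Agent.R798.RatSum.card_Fam (by omega)]
            rfl
          rw [← hc]
          apply Set.ncard_le_ncard _ (hfin _)
          intro B hB
          exact Pool.Agent.R798.RatSum.mem_Fam (by omega) (Finset.mem_coe.1 hB)
        · apply hupper
          · rw [Finset.card_union_of_disjoint (Pool.Agent.R798.RatSum.A_disj (by omega) _ _),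
              Pool.Agent.R798.RatSum.card_A1, Pool.Agent.R798.RatSum.card_A2]
            have := Nat.div_le_self n r
            omega
          · intro a ha
            rcases Finset.mem_union.1 ha with h1 | h1
            · obtain ⟨i, _, rfl⟩ := Finset.mem_image.1 h1
              exact Pool.Agent.R798.RatSum.irr_a1 (by omega) i
            · obtain ⟨i, _, rfl⟩ := Finset.mem_image.1 h1
              exact Pool.Agent.R798.RatSum.irr_a2 i
    · rintro c ⟨A, hA1, hA2, rfl⟩
      exact hupper A hA1 hA2
  exact ⟨hgreat, hgreat.csSup_eq⟩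

end Pool.Agent.Results.MP_604c02_co.RationalSums
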